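import Mathlib

/-! In a group all of whose commutators have order dividing five, an element `a` with central
square admits a transfer homomorphism from the group to the abelianised centraliser of `a`,
which is the fifth power map on the centraliser. No finiteness or periodicity is used. -/

namespace Pool.Agent.Results.MP_307af1_al.InvolutionTransfer

section
variable {G : Type*} [Group G]

/-- The component of `g` in the centraliser of `a`. -/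
def pr (a g : G) : G := g * (a * g⁻¹ * a⁻¹ * g) ^ 2

theorem pr_eq {a c s : G} (hc : a * c * a⁻¹ = c) (hs : a * s * a⁻¹ = s⁻¹) (h5 : s ^ 5 = 1) :
    pr a (c * s) = c := by
  have h1 : a * (c * s)⁻¹ * a⁻¹ = s * c⁻¹ := by
    calc a * (c * s)⁻¹ * a⁻¹ = ((a * c * a⁻¹) * (a * s * a⁻¹))⁻¹ := by group
      _ = s * c⁻¹ := by rw [hc, hs]; group
  unfold pr
  rw [h1]
  calc c * s * (s * c⁻¹ * (c * s)) ^ 2 = c * s ^ 5 := by
        rw [show s * c⁻¹ * (c * s) = s ^ 2 by rw [pow_two]; group]; group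
    _ = c := by rw [h5, mul_one]

theorem decomp (h : ∀ x y : G, (x * y * x⁻¹ * y⁻¹) ^ 5 = 1) {a : G}
    (ha : ∀ g, a ^ 2 * g = g * a ^ 2) (g : G) :
    ∃ s, g = pr a g * s ∧ a * pr a g * a⁻¹ = pr a g ∧ s ^ 5 = 1 ∧ a * s * a⁻¹ = s⁻¹ := by
  set t := a * g⁻¹ * a⁻¹ * g with ht
  have h5 : t ^ 5 = 1 := by simpa using h a g⁻¹
  have h2 : a * t * a⁻¹ = t⁻¹ := by
    have := ha g⁻¹
    calc a * t * a⁻¹ = (a ^ 2 * g⁻¹) * a⁻¹ * g * a⁻¹ := by rw [ht, pow_two]; group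
      _ = t⁻¹ := by rw [this, ht, pow_two]; group
  have h3 : ∀ n : ℕ, a * t ^ n * a⁻¹ = (t ^ n)⁻¹ := by
    intro n
    rw [← conj_pow, h2, inv_pow]
  refine ⟨t ^ 3, ?_, ?_, ?_, h3 3⟩
  · unfold pr
    rw [← ht, mul_assoc, ← pow_add, h5, mul_one]
  · unfold pr
    rw [← ht]
    have e : a * g * a⁻¹ = g * t⁻¹ := by rw [ht]; group
    calc a * (g * t ^ 2) * a⁻¹ = (a * g * a⁻¹) * (a * t ^ 2 * a⁻¹) := by group
      _ = g * t ^ 2 * (t ^ 5)⁻¹ := by rw [e, h3]; group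
      _ = g * t ^ 2 := by rw [h5]; group
  · rw [← pow_mul, mul_comm, pow_mul, h5, one_pow]

/-- The holonomy of a triangle is conjugate to a commutator. -/
theorem holonomy (h : ∀ x y : G, (x * y * x⁻¹ * y⁻¹) ^ 5 = 1) {a s t : G}
    (hs : a * s * a⁻¹ = s⁻¹) (hs5 : s ^ 5 = 1) (ht : a * t * a⁻¹ = t⁻¹) (ht5 : t ^ 5 = 1) :
    pr a (s * t) ^ 5 = 1 := by
  have h1 : a * (s * t)⁻¹ * a⁻¹ = t * s := by
    calc a * (s * t)⁻¹ * a⁻¹ = ((a * s * a⁻¹) * (a * t * a⁻¹))⁻¹ := by group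
      _ = t * s := by rw [hs, ht]; group
  have h2 := h (s ^ 2 * t ^ 4)⁻¹ ((t ^ 2)⁻¹ * s ^ 2)⁻¹
  have e1 : (t ^ 4)⁻¹ = t := by
    rw [inv_eq_iff_mul_eq_one, ← pow_succ, ht5]
  have e2 : (s ^ 4)⁻¹ = s := by
    rw [inv_eq_iff_mul_eq_one, ← pow_succ, hs5]
  have e3 : (s ^ 2 * t ^ 4)⁻¹ * ((t ^ 2)⁻¹ * s ^ 2)⁻¹ * (s ^ 2 * t ^ 4)⁻¹⁻¹ * ((t ^ 2)⁻¹ * s ^ 2)⁻¹⁻¹
      = (t ^ 4)⁻¹ * (s ^ 4)⁻¹ * (t ^ 2 * s ^ 2 * t ^ 2 * s ^ 2) := by group
  have e4 : pr a (s * t) = t⁻¹ * (t * s * (t ^ 2 * s ^ 2 * t ^ 2 * s ^ 2)) * t⁻¹⁻¹ := by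
    unfold pr
    rw [h1]
    simp only [pow_two]; group
  rw [e3, e1, e2] at h2
  rw [e4, conj_pow, h2]; group

theorem mem_cent {a c : G} : c ∈ Subgroup.centralizer ({a} : Set G) ↔ a * c * a⁻¹ = c := by
  rw [Subgroup.mem_centralizer_singleton_iff, mul_inv_eq_iff_eq_mul, eq_comm]

theorem pr_mul (h : ∀ x y : G, (x * y * x⁻¹ * y⁻¹) ^ 5 = 1) {a : G}
    (ha : ∀ g, a ^ 2 * g = g * a ^ 2) (g1 g2 : G) :
    ∃ m, a * m * a⁻¹ = m ∧ m ^ 5 = 1 ∧ pr a (g1 * g2) = pr a g1 * pr a g2 * m := by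
  obtain ⟨s1, e1, c1, p1, i1⟩ := decomp h ha g1
  obtain ⟨s2, e2, c2, p2, i2⟩ := decomp h ha g2
  set x1 := pr a g1
  set x2 := pr a g2
  have i3 : a * (x2⁻¹ * s1 * x2) * a⁻¹ = (x2⁻¹ * s1 * x2)⁻¹ := by
    calc a * (x2⁻¹ * s1 * x2) * a⁻¹ = (a * x2 * a⁻¹)⁻¹ * (a * s1 * a⁻¹) * (a * x2 * a⁻¹) := by group
      _ = _ := by rw [c2, i1]; group
  have p3 : (x2⁻¹ * s1 * x2) ^ 5 = 1 := by
    have := conj_pow (a := x2⁻¹) (b := s1) (i := 5)
    rw [inv_inv] at this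
    rw [this, p1]; group
  obtain ⟨u, e3, c3, p4, i4⟩ := decomp h ha (x2⁻¹ * s1 * x2 * s2)
  refine ⟨pr a (x2⁻¹ * s1 * x2 * s2), c3, holonomy h i3 p3 i2 p2, ?_⟩
  set m := pr a (x2⁻¹ * s1 * x2 * s2)
  have e4 : g1 * g2 = x1 * x2 * m * u := by
    rw [mul_assoc (x1 * x2), ← e3, e1, e2]; group
  rw [e4]
  refine pr_eq ?_ i4 p4
  calc a * (x1 * x2 * m) * a⁻¹ = (a * x1 * a⁻¹) * (a * x2 * a⁻¹) * (a * m * a⁻¹) := by group
    _ = _ := by rw [c1, c2, c3]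

/-- The transfer homomorphism. -/
def tr (h : ∀ x y : G, (x * y * x⁻¹ * y⁻¹) ^ 5 = 1) {a : G} (ha : ∀ g, a ^ 2 * g = g * a ^ 2) :
    G →* Abelianization (Subgroup.centralizer ({a} : Set G)) :=
  MonoidHom.mk' (fun g => Abelianization.of
    (⟨pr a g, mem_cent.mpr (decomp h ha g).choose_spec.2.1⟩ : Subgroup.centralizer ({a} : Set G)) ^ 5)
    (by
      intro g1 g2
      obtain ⟨m, hm, hm5, e⟩ := pr_mul h ha g1 g2
      have e2 : (⟨pr a (g1 * g2), mem_cent.mpr (decomp h ha (g1 * g2)).choose_spec.2.1⟩ :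
          Subgroup.centralizer ({a} : Set G))
          = ⟨pr a g1, mem_cent.mpr (decomp h ha g1).choose_spec.2.1⟩
            * ⟨pr a g2, mem_cent.mpr (decomp h ha g2).choose_spec.2.1⟩ * ⟨m, mem_cent.mpr hm⟩ :=
        Subtype.ext e
      have e3 : (⟨m, mem_cent.mpr hm⟩ : Subgroup.centralizer ({a} : Set G)) ^ 5 = 1 :=
        Subtype.ext hm5
      rw [e2, map_mul, map_mul, mul_pow, mul_pow, ← map_pow _ (⟨m, _⟩ : Subgroup.centralizer _), e3,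
        map_one, mul_one])

end

theorem result (G : Type*) [Group G] (h : ∀ x y : G, (x * y * x⁻¹ * y⁻¹) ^ 5 = 1)
    (a : G) (ha : a ^ 2 ∈ Subgroup.center G) (g : G) (hg : g ∈ commutator G) :
    ∃ c s : G, g = c * s ∧ c ∈ Subgroup.centralizer ({a} : Set G) ∧
      c ^ 5 ∈ ⁅Subgroup.centralizer ({a} : Set G), Subgroup.centralizer ({a} : Set G)⁆ ∧
      s ^ 5 = 1 ∧ a * s * a⁻¹ = s⁻¹ := by
  have ha' : ∀ g, a ^ 2 * g = g * a ^ 2 := fun g => (Subgroup.mem_center_iff.mp ha g).symm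
  obtain ⟨s, e, hc, p, i⟩ := decomp h ha' g
  refine ⟨pr a g, s, e, mem_cent.mpr hc, ?_, p, i⟩
  have h1 : g ∈ (tr h ha').ker := Abelianization.commutator_subset_ker _ hg
  have h2 : (⟨pr a g, mem_cent.mpr hc⟩ : Subgroup.centralizer ({a} : Set G)) ^ 5
      ∈ commutator (Subgroup.centralizer ({a} : Set G)) := by
    rw [← Abelianization.ker_of, MonoidHom.mem_ker, map_pow]
    exact h1
  rw [← Subgroup.map_subtype_commutator]
  exact ⟨_, h2, rfl⟩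

end Pool.Agent.Results.MP_307af1_al.InvolutionTransfer
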