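import Mathlib
import Pool.Agent.Lib.MP_307af1_al.Cent2

/-! If all commutators have order dividing five, every product of four commutators has order
dividing `2^j * 75` modulo the centre for some `j`, and the centraliser of every subgroup of the
derived subgroup that is a two-group modulo the centre is the centraliser of a finite subset of
it, then the derived subgroup is a five-group. -/

namespace Pool.Agent.Results.MP_307af1_al.MinCentralisers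

theorem result (G : Type*) [Group G] (h : ∀ x y : G, (x * y * x⁻¹ * y⁻¹) ^ 5 = 1)
    (hu : ∀ x₁ y₁ x₂ y₂ x₃ y₃ x₄ y₄ : G, ∃ j : ℕ,
      ((x₁ * y₁ * x₁⁻¹ * y₁⁻¹) * (x₂ * y₂ * x₂⁻¹ * y₂⁻¹) * (x₃ * y₃ * x₃⁻¹ * y₃⁻¹)
        * (x₄ * y₄ * x₄⁻¹ * y₄⁻¹)) ^ (2 ^ j * 75) ∈ Subgroup.center G)
    (hc : ∀ B : Subgroup G, B ≤ commutator G →
      (∀ b ∈ B, ∃ j : ℕ, b ^ 2 ^ j ∈ Subgroup.center G) →
      ∃ F : Finset G, (F : Set G) ⊆ B ∧
        Subgroup.centralizer (F : Set G) = Subgroup.centralizer (B : Set G)) :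
    ∀ g ∈ commutator G, ∃ n : ℕ, g ^ (5 ^ n) = 1 := by
  refine Pool.Agent.Lib.MP_307af1_al.five_of_cent_center h ?_ hc
  rintro _ ⟨x₁, y₁, rfl⟩ _ ⟨x₂, y₂, rfl⟩ _ ⟨x₃, y₃, rfl⟩ _ ⟨x₄, y₄, rfl⟩
  exact hu x₁ y₁ x₂ y₂ x₃ y₃ x₄ y₄

end Pool.Agent.Results.MP_307af1_al.MinCentralisers
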