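import Mathlib
import Pool.Agent.Lib.MP_307af1_al.Four

/-! If all commutators have order dividing five and every product of four commutators has order
dividing 50 or 75 modulo the centre, then the derived subgroup is a five-group. -/

namespace Pool.Agent.Results.MP_307af1_al.OrdersModCentre

theorem result (G : Type*) [Group G] (h : ∀ x y : G, (x * y * x⁻¹ * y⁻¹) ^ 5 = 1)
    (hu : ∀ x₁ y₁ x₂ y₂ x₃ y₃ x₄ y₄ u : G,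
      u = (x₁ * y₁ * x₁⁻¹ * y₁⁻¹) * (x₂ * y₂ * x₂⁻¹ * y₂⁻¹) * (x₃ * y₃ * x₃⁻¹ * y₃⁻¹)
        * (x₄ * y₄ * x₄⁻¹ * y₄⁻¹) →
      u ^ 50 ∈ Subgroup.center G ∨ u ^ 75 ∈ Subgroup.center G) :
    ∀ g ∈ commutator G, ∃ n : ℕ, g ^ (5 ^ n) = 1 := by
  refine Pool.Agent.Lib.MP_307af1_al.five_of_four_center h ?_
  rintro _ ⟨x₁, y₁, rfl⟩ _ ⟨x₂, y₂, rfl⟩ _ ⟨x₃, y₃, rfl⟩ _ ⟨x₄, y₄, rfl⟩
  exact hu x₁ y₁ x₂ y₂ x₃ y₃ x₄ y₄ _ rfl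

end Pool.Agent.Results.MP_307af1_al.OrdersModCentre
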