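import Mathlib
import Pool.Agent.Lib.MP_307af1_al.Dyck

/-! If all commutators have order dividing five, then every two-element of the derived subgroup
is the first term of an infinite sequence of successive square roots in the derived subgroup. -/

namespace Pool.Agent.Results.MP_307af1_al.TwoElementRoots

theorem result (G : Type*) [Group G] (h : ∀ x y : G, (x * y * x⁻¹ * y⁻¹) ^ 5 = 1)
    (u : G) (hu : u ∈ commutator G) (j : ℕ) (hj : u ^ 2 ^ j = 1) :
    ∃ v : ℕ → G, v 0 = u ∧ ∀ n : ℕ, v n ∈ commutator G ∧ v (n + 1) ^ 2 = v n :=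
  Pool.Agent.Lib.MP_307af1_al.root_seq h hu hj

end Pool.Agent.Results.MP_307af1_al.TwoElementRoots
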